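import Pool.Agent.K4H25.FH.Spec

/-!
Fractional Gaussian noise with Hurst exponent above one half: signs of the covariances of the
increments and of their differences.
-/

set_option autoImplicit false

namespace Pool.Agent.K4H25.FH

open Finset

lemma gam_neg (H : ℝ) (j : ℤ) : gam H (-j) = gam H j := by
  unfold gam
  push_cast
  have h1 : |-(j : ℝ) + 1| = |(j : ℝ) - 1| := by rw [← abs_neg]; congr 1; ring
  have h2 : |-(j : ℝ) - 1| = |(j : ℝ) + 1| := by rw [← abs_neg]; congr 1; ring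
  rw [h1, h2, abs_neg]
  ring

lemma dlt_neg (H : ℝ) (j : ℤ) : dlt H (-j) = dlt H j := by
  unfold dlt
  have h1 : -j + 1 = -(j - 1) := by ring
  have h2 : -j - 1 = -(j + 1) := by ring
  rw [h1, h2, gam_neg, gam_neg, gam_neg]
  ring

theorem row {H : ℝ} (i n : ℕ) :
    ∑ m ∈ range (i + n + 1), dlt H ((i : ℤ) - (m : ℤ)) = phi H i + phi H n := by
  have key : ∀ K : ℕ, ∑ m ∈ range K, dlt H ((i : ℤ) - (m : ℤ)) =
      (gam H i - gam H (i + 1)) - (gam H ((i : ℤ) - K) - gam H ((i : ℤ) - K + 1)) := by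
    intro K
    induction K with
    | zero => simp
    | succ K ih =>
      rw [sum_range_succ, ih, dlt]
      have h1 : (i : ℤ) - ((K + 1 : ℕ) : ℤ) = (i : ℤ) - K - 1 := by push_cast; ring
      have h2 : (i : ℤ) - K - 1 + 1 = (i : ℤ) - K := by ring
      rw [h1, h2]
      ring
  rw [key]
  unfold phi
  have h1 : (i : ℤ) - ((i + n + 1 : ℕ) : ℤ) = -((n : ℤ) + 1) := by push_cast; ring
  have h2 : -((n : ℤ) + 1) + 1 = -(n : ℤ) := by ring
  rw [h1, h2, gam_neg, gam_neg]
  ring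

/-- second difference of `x ^ s` -/
noncomputable def hh (s x : ℝ) : ℝ := (x + 1) ^ s - 2 * x ^ s + (x - 1) ^ s

lemma gam_hh (H : ℝ) {n : ℕ} (hn : 1 ≤ n) : gam H n = hh (2 * H) n / 2 := by
  unfold gam hh
  have h1 : (1 : ℝ) ≤ n := by exact_mod_cast hn
  push_cast
  rw [abs_of_nonneg (by linarith : (0 : ℝ) ≤ (n : ℝ) + 1), abs_of_nonneg (by linarith : (0 : ℝ) ≤ (n : ℝ)),
    abs_of_nonneg (by linarith : (0 : ℝ) ≤ (n : ℝ) - 1)]

lemma gam_zero {H : ℝ} (h : 1 / 2 < H) : gam H 0 = 1 := by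
  unfold gam
  have : (2 * H) ≠ 0 := by linarith
  simp [Real.zero_rpow this]

lemma continuousOn_hh {s : ℝ} (hs : 0 ≤ s) (D : Set ℝ) : ContinuousOn (hh s) D := by
  unfold hh
  have h : ∀ c : ℝ, Continuous fun x : ℝ => (x + c) ^ s := fun c =>
    (continuous_id.add continuous_const).rpow_const (fun _ => Or.inr hs)
  have h1 := h 1
  have h2 := h 0
  have h3 := h (-1)
  simp only [add_zero] at h2
  exact ((h1.sub (continuous_const.mul h2)).add (by simpa [sub_eq_add_neg] using h3)).continuousOn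

lemma hasDerivAt_hh (s : ℝ) {x : ℝ} (hx : 1 < x) : HasDerivAt (hh s) (s * hh (s - 1) x) x := by
  unfold hh
  have h1 : HasDerivAt (fun y : ℝ => (y + 1) ^ s) (1 * s * (x + 1) ^ (s - 1)) x :=
    ((hasDerivAt_id x).add_const 1).rpow_const (Or.inl (by simp; linarith))
  have h2 : HasDerivAt (fun y : ℝ => y ^ s) (1 * s * x ^ (s - 1)) x :=
    (hasDerivAt_id x).rpow_const (Or.inl (by simp; linarith))
  have h3 : HasDerivAt (fun y : ℝ => (y - 1) ^ s) (1 * s * (x - 1) ^ (s - 1)) x :=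
    ((hasDerivAt_id x).sub_const 1).rpow_const (Or.inl (by simp; linarith))
  refine ((h1.sub (h2.const_mul 2)).add h3).congr_deriv ?_
  ring

lemma hh_neg {p : ℝ} (h0 : 0 < p) (h1 : p < 1) {x : ℝ} (hx : 1 ≤ x) : hh p x < 0 := by
  have ha : x - 1 ∈ Set.Ici (0 : ℝ) := by rw [Set.mem_Ici]; linarith
  have hb : x + 1 ∈ Set.Ici (0 : ℝ) := by rw [Set.mem_Ici]; linarith
  have hne : x - 1 ≠ x + 1 := by intro h; linarith
  have hc : (0 : ℝ) < 1 / 2 := by norm_num
  have h := (Real.strictConcaveOn_rpow h0 h1).2 ha hb hne hc hc (by norm_num)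
  simp only [smul_eq_mul] at h
  have h2 : 1 / 2 * (x - 1) + 1 / 2 * (x + 1) = x := by ring
  rw [h2] at h
  unfold hh
  linarith

lemma hh_nonneg {p : ℝ} (h0 : 1 ≤ p) {x : ℝ} (hx : 1 ≤ x) : 0 ≤ hh p x := by
  have ha : x - 1 ∈ Set.Ici (0 : ℝ) := by rw [Set.mem_Ici]; linarith
  have hb : x + 1 ∈ Set.Ici (0 : ℝ) := by rw [Set.mem_Ici]; linarith
  have hc : (0 : ℝ) ≤ 1 / 2 := by norm_num
  have h := (convexOn_rpow h0).2 ha hb hc hc (by norm_num)
  simp only [smul_eq_mul] at h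
  have h2 : 1 / 2 * (x - 1) + 1 / 2 * (x + 1) = x := by ring
  rw [h2] at h
  unfold hh
  linarith

lemma hh_nonneg_of_neg {q : ℝ} (h0 : q < 0) {x : ℝ} (hx : 1 < x) : 0 ≤ hh q x := by
  have hp1 : 0 < x - 1 := by linarith
  have hp2 : 0 < x + 1 := by linarith
  have hp3 : 0 < x := by linarith
  have h1 : (x + 1) ^ q = ((x + 1) ^ (q / 2)) ^ 2 := by
    rw [← Real.rpow_natCast, ← Real.rpow_mul hp2.le]; congr 1; push_cast; ring
  have h2 : (x - 1) ^ q = ((x - 1) ^ (q / 2)) ^ 2 := by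
    rw [← Real.rpow_natCast, ← Real.rpow_mul hp1.le]; congr 1; push_cast; ring
  have h3 : x ^ q ≤ (x + 1) ^ (q / 2) * (x - 1) ^ (q / 2) := by
    rw [← Real.mul_rpow hp2.le hp1.le]
    have h4 : x ^ q = (x ^ 2) ^ (q / 2) := by
      rw [← Real.rpow_natCast, ← Real.rpow_mul hp3.le]; congr 1; push_cast; ring
    rw [h4]
    exact Real.rpow_le_rpow_of_nonpos (by positivity) (by nlinarith) (by linarith)
  unfold hh
  rw [h1, h2]
  nlinarith [sq_nonneg ((x + 1) ^ (q / 2) - (x - 1) ^ (q / 2))]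

/-- the covariances decrease strictly -/
lemma hh_anti {s : ℝ} (h : 1 < s) (h2 : s < 2) : StrictAntiOn (hh s) (Set.Ici 1) := by
  refine strictAntiOn_of_deriv_neg (convex_Ici 1) (continuousOn_hh (by linarith) _) fun x hx => ?_
  rw [interior_Ici] at hx
  rw [(hasDerivAt_hh s hx).deriv]
  have h3 := hh_neg (p := s - 1) (by linarith) (by linarith) (x := x) (le_of_lt hx)
  nlinarith

lemma hh_mono {p : ℝ} (h : 0 < p) (h2 : p < 1) : MonotoneOn (hh p) (Set.Ici 1) := by
  refine monotoneOn_of_deriv_nonneg (convex_Ici 1) (continuousOn_hh h.le _)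
    (fun x hx => ?_) fun x hx => ?_
  · rw [interior_Ici] at hx
    exact (hasDerivAt_hh p hx).differentiableAt.differentiableWithinAt
  · rw [interior_Ici] at hx
    rw [(hasDerivAt_hh p hx).deriv]
    exact mul_nonneg h.le (hh_nonneg_of_neg (by linarith) hx)

/-- the decrements of the covariances decrease -/
lemma kk_anti {s : ℝ} (h : 1 < s) (h2 : s < 2) :
    AntitoneOn (fun x => hh s x - hh s (x + 1)) (Set.Ici 1) := by
  have hc : Continuous fun x : ℝ => x + 1 := continuous_id.add continuous_const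
  have hd : ∀ x : ℝ, 1 < x → HasDerivAt (fun x => hh s x - hh s (x + 1))
      (s * hh (s - 1) x - s * hh (s - 1) (x + 1)) x := by
    intro x hx
    have h1 := hasDerivAt_hh s hx
    have h3 : HasDerivAt (hh s) (s * hh (s - 1) (x + 1)) (x + 1) :=
      hasDerivAt_hh s (by linarith)
    have h4 : HasDerivAt (fun y => hh s (y + 1)) (s * hh (s - 1) (x + 1)) x := by
      have := h3.comp_add_const x 1
      exact this
    exact h1.sub h4
  refine antitoneOn_of_deriv_nonpos (convex_Ici 1) ?_ (fun x hx => ?_) fun x hx => ?_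
  · refine (continuousOn_hh (by linarith) _).sub ?_
    exact (continuousOn_hh (s := s) (by linarith) Set.univ).comp hc.continuousOn (fun _ _ => Set.mem_univ _)
  · rw [interior_Ici] at hx
    exact (hd x hx).differentiableAt.differentiableWithinAt
  · rw [interior_Ici] at hx
    rw [(hd x hx).deriv]
    have hx' : (1 : ℝ) < x := hx
    have ha : x ∈ Set.Ici (1 : ℝ) := by rw [Set.mem_Ici]; linarith
    have hb : x + 1 ∈ Set.Ici (1 : ℝ) := by rw [Set.mem_Ici]; linarith
    have h3 := hh_mono (p := s - 1) (by linarith) (by linarith) ha hb (by linarith)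
    nlinarith

lemma two_rpow_lt {s : ℝ} (h2 : s < 2) : (2 : ℝ) ^ s < 4 := by
  have := Real.rpow_lt_rpow_of_exponent_lt (x := 2) (by norm_num) h2
  have h4 : (2 : ℝ) ^ (2 : ℝ) = 4 := by
    rw [show (2 : ℝ) = ((2 : ℕ) : ℝ) by norm_num, Real.rpow_natCast]; norm_num
  rwa [h4] at this

theorem phi_pos {H : ℝ} (h : 1 / 2 < H) (h1 : H < 1) (n : ℕ) : 0 < phi H n := by
  unfold phi
  rcases Nat.eq_zero_or_pos n with rfl | hn
  · have e1 : gam H ((0 : ℕ) : ℤ) = 1 := by exact_mod_cast gam_zero h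
    have e2 : gam H (((0 : ℕ) : ℤ) + 1) = hh (2 * H) 1 / 2 := by
      have := gam_hh H (n := 1) le_rfl
      push_cast at this ⊢
      simpa using this
    rw [e1, e2]
    unfold hh
    have h0 : (2 * H) ≠ 0 := by linarith
    have e3 : ((1 : ℝ) - 1) ^ (2 * H) = 0 := by rw [sub_self]; exact Real.zero_rpow h0
    have e4 : (1 : ℝ) + 1 = 2 := by norm_num
    rw [e3, e4, Real.one_rpow]
    have := two_rpow_lt (s := 2 * H) (by linarith)
    linarith
  · have e1 := gam_hh H (n := n) hn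
    have e2 := gam_hh H (n := n + 1) (by omega)
    have e3 : ((n : ℤ) + 1) = (((n + 1 : ℕ)) : ℤ) := by push_cast; ring
    rw [e3, e1, e2]
    have hn' : (1 : ℝ) ≤ n := by exact_mod_cast hn
    have h3 := hh_anti (s := 2 * H) (by linarith) (by linarith) (a := (n : ℝ)) (b := ((n + 1 : ℕ) : ℝ))
      (by simpa using hn') (by simp) (by push_cast; linarith)
    linarith

lemma three_two {s : ℝ} (h2 : s < 2) : 0 < (3 : ℝ) ^ s - 4 * 2 ^ s + 7 := by
  have hlog : 9 * Real.log (3 / 2) < 7 * Real.log 2 := by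
    rw [← Real.log_rpow (by norm_num) , ← Real.log_rpow (by norm_num)]
    refine Real.log_lt_log (by positivity) ?_
    rw [show (9 : ℝ) = ((9 : ℕ) : ℝ) by norm_num, show (7 : ℝ) = ((7 : ℕ) : ℝ) by norm_num,
      Real.rpow_natCast, Real.rpow_natCast]
    norm_num
  have e1 : (3 / 2 : ℝ) ^ s = 9 / 4 * Real.exp ((s - 2) * Real.log (3 / 2)) := by
    rw [Real.rpow_def_of_pos (by norm_num)]
    have : Real.log (3 / 2) * s = Real.log (3 / 2) + Real.log (3 / 2) + (s - 2) * Real.log (3 / 2) := by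
      ring
    rw [this, Real.exp_add, Real.exp_add, Real.exp_log (by norm_num)]
    ring
  have e2 : (1 / 2 : ℝ) ^ s = 1 / 4 * Real.exp ((2 - s) * Real.log 2) := by
    rw [Real.rpow_def_of_pos (by norm_num)]
    have hl : Real.log (1 / 2) = - Real.log 2 := by rw [one_div, Real.log_inv]
    have : Real.log (1 / 2) * s = Real.log (1 / 2) + Real.log (1 / 2) + (2 - s) * Real.log 2 := by
      rw [hl]; ring
    rw [this, Real.exp_add, Real.exp_add, Real.exp_log (by norm_num)]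
    ring
  have h3 := Real.add_one_le_exp ((s - 2) * Real.log (3 / 2))
  have h4 := Real.add_one_le_exp ((2 - s) * Real.log 2)
  have h5 : 4 < (3 / 2 : ℝ) ^ s + 7 * (1 / 2 : ℝ) ^ s := by
    rw [e1, e2]
    nlinarith [mul_pos (sub_pos.mpr h2) (sub_pos.mpr hlog)]
  have h6 : (0 : ℝ) < 2 ^ s := by positivity
  have e3 : (3 / 2 : ℝ) ^ s * 2 ^ s = 3 ^ s := by
    rw [← Real.mul_rpow (by norm_num) (by norm_num)]; norm_num
  have e4 : (1 / 2 : ℝ) ^ s * 2 ^ s = 1 := by
    rw [← Real.mul_rpow (by norm_num) (by norm_num)]; norm_num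
  have h7 := mul_lt_mul_of_pos_right h5 h6
  have h8 : ((3 / 2 : ℝ) ^ s + 7 * (1 / 2 : ℝ) ^ s) * 2 ^ s = 3 ^ s + 7 := by
    rw [add_mul, e3, mul_assoc, e4]; ring
  rw [h8] at h7
  linarith

theorem dlt_one_neg {H : ℝ} (h : 1 / 2 < H) (h1 : H < 1) : dlt H 1 < 0 := by
  unfold dlt
  have e0 : gam H (1 - 1) = 1 := by
    rw [sub_self]; exact gam_zero h
  have e1 : gam H 1 = hh (2 * H) 1 / 2 := by
    have := gam_hh H (n := 1) le_rfl
    push_cast at this ⊢
    simpa using this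
  have e2 : gam H (1 + 1) = hh (2 * H) 2 / 2 := by
    have := gam_hh H (n := 2) (by norm_num)
    have e : (1 : ℤ) + 1 = ((2 : ℕ) : ℤ) := by norm_num
    rw [e, this]
    norm_num
  rw [e0, e1, e2]
  unfold hh
  have h0 : (2 * H) ≠ 0 := by linarith
  have e3 : ((1 : ℝ) - 1) ^ (2 * H) = 0 := by rw [sub_self]; exact Real.zero_rpow h0
  have e4 : (1 : ℝ) + 1 = 2 := by norm_num
  have e5 : (2 : ℝ) + 1 = 3 := by norm_num
  have e6 : (2 : ℝ) - 1 = 1 := by norm_num
  rw [e3, e4, e5, e6, Real.one_rpow]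
  have := three_two (s := 2 * H) (by linarith)
  linarith

theorem dlt_nonpos {H : ℝ} (h : 1 / 2 < H) (h1 : H < 1) {j : ℤ} (hj : j ≠ 0) : dlt H j ≤ 0 := by
  have key : ∀ n : ℕ, 1 ≤ n → dlt H (n : ℤ) ≤ 0 := by
    intro n hn
    rcases Nat.lt_or_ge n 2 with h2 | h2
    · have : n = 1 := by omega
      subst this
      exact_mod_cast (dlt_one_neg h h1).le
    · obtain ⟨m, rfl⟩ : ∃ m : ℕ, n = m + 1 := ⟨n - 1, by omega⟩
      have hm : 1 ≤ m := by omega
      unfold dlt
      have e1 := gam_hh H (n := m + 1) (by omega)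
      have e2 := gam_hh H (n := m + 2) (by omega)
      have e3 := gam_hh H (n := m) hm
      have c1 : (((m + 1 : ℕ)) : ℤ) + 1 = ((m + 2 : ℕ) : ℤ) := by push_cast; ring
      have c2 : (((m + 1 : ℕ)) : ℤ) - 1 = (m : ℤ) := by push_cast; ring
      rw [c1, c2, e1, e2, e3]
      have hm' : (1 : ℝ) ≤ m := by exact_mod_cast hm
      have h3 := kk_anti (s := 2 * H) (by linarith) (by linarith) (a := (m : ℝ)) (b := (m : ℝ) + 1)
        (by rw [Set.mem_Ici]; exact hm') (by rw [Set.mem_Ici]; linarith) (by linarith)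
      simp only at h3
      push_cast
      have e : (m : ℝ) + 1 + 1 = m + 2 := by ring
      rw [e] at h3
      linarith
  rcases lt_or_gt_of_ne hj with h2 | h2
  · obtain ⟨n, hn⟩ : ∃ n : ℕ, -j = n := ⟨(-j).toNat, by omega⟩
    have : dlt H (-j) ≤ 0 := by rw [hn]; exact key n (by omega)
    rwa [dlt_neg] at this
  · obtain ⟨n, hn⟩ : ∃ n : ℕ, j = n := ⟨j.toNat, by omega⟩
    rw [hn]; exact key n (by omega)

theorem gam_nonneg {H : ℝ} (h : 1 / 2 < H) (_h1 : H < 1) (j : ℤ) : 0 ≤ gam H j := by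
  have key : ∀ n : ℕ, 0 ≤ gam H (n : ℤ) := by
    intro n
    rcases Nat.eq_zero_or_pos n with rfl | hn
    · have : gam H ((0 : ℕ) : ℤ) = 1 := by exact_mod_cast gam_zero h
      rw [this]; norm_num
    · rw [gam_hh H hn]
      have := hh_nonneg (p := 2 * H) (by linarith) (x := n) (by exact_mod_cast hn)
      linarith
  rcases le_or_gt 0 j with h2 | h2
  · obtain ⟨n, hn⟩ : ∃ n : ℕ, j = n := ⟨j.toNat, by omega⟩
    rw [hn]; exact key n
  · obtain ⟨n, hn⟩ : ∃ n : ℕ, -j = n := ⟨(-j).toNat, by omega⟩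
    rw [← gam_neg, hn]; exact key n

end Pool.Agent.K4H25.FH
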